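import Pool.Agent.Mg.F97bb71.G963768

namespace Pool.Agent.Results.MP_97bb71_gt.Gap
open Pool.Agent.MP_97bb71_gt

/-- A non-split link with a diagram of Turaev genus one whose dealternating number is at least
two, so that its Turaev genus is smaller than its dealternating number. -/
theorem result : ∃ D : Diagram, D.Planar ∧ (∀ E, Same D E → E.pieces = 1) ∧
    D.sA + D.sB = D.n ∧ 2 ≤ dalt D ∧ turaevGenus D < dalt D := by
  obtain ⟨D, h1, h2, h3, h4, h5⟩ := main
  exact ⟨D, h1, h2, h3, h5, by omega⟩

end Pool.Agent.Results.MP_97bb71_gt.Gap
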